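import Pool.Agent.ZPK.StmtsG
import Pool.Agent.Helper15_ZPT.KX

/-!
# Squad ZPK, row TK: THEOREM K
-/

set_option autoImplicit false

noncomputable section

namespace Pool.Agent.ZPK.H7

open Polynomial Pool.Agent.ZPT Pool.Agent.ZP3 Pool.Agent.ZPK

theorem norm_z (p : ℕ) [hp : Fact p.Prime] (z : ℤ) (h1 : (p : ℤ) ∣ z) (h2 : ¬ (p : ℤ) ^ 2 ∣ z) :
    ‖(z : ℂ_[p])‖ = (p : ℝ)⁻¹ := by
  obtain ⟨y, rfl⟩ := h1
  have hy : ¬ (p : ℤ) ∣ y := by
    intro h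
    obtain ⟨x, rfl⟩ := h
    exact h2 ⟨x, by ring⟩
  have h3 := Pool.Agent.ZPT.H15.kx p ((p : ℚ) * (y : ℚ))
  have h4 : padicNorm p ((p : ℚ) * (y : ℚ)) = (p : ℚ)⁻¹ := by
    rw [padicNorm.mul, padicNorm.padicNorm_p_of_prime, padicNorm.int_eq_one_iff y |>.mpr hy, mul_one]
  rw [h4] at h3
  push_cast at h3
  push_cast
  exact h3

theorem tk (hFna : FnaStmt) (hLoa : LoaStmt) (hCnp : CnpStmt) (hPem : PemStmt)
    (hDnk : DnkStmt) : TkStmt := by
  classical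
  intro n P hP hdim hQ m b hm hb hlin ε hε
  obtain ⟨b', hb'⟩ : ∃ b' : Fin m → Qb, ∀ r, (b' r : ℂ) = b r :=
    ⟨fun r => ⟨b r, mem_algebraicClosure_iff.mpr (hb r)⟩, fun _ => rfl⟩
  have hlin' : LinearIndependent ℚ b' := by
    refine LinearIndependent.of_comp (algebraicClosure ℚ ℂ).val.toLinearMap ?_
    have h1 : ((algebraicClosure ℚ ℂ).val.toLinearMap : Qb → ℂ) ∘ b' = b := funext fun r => hb' r
    rw [h1]
    exact hlin
  obtain ⟨p₀, N, bb, e, f, hBr, hF⟩ := hFna GnK hLoa n P hP hdim hQ (Finset.univ.image b')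
  obtain ⟨p₁, C, hC⟩ := hCnp n m N b' bb e f hBr
  obtain ⟨PP, p₂, hPP, hsum, hemb⟩ := hPem m b' hm hlin'
  obtain ⟨p₃, hp₃⟩ : ∃ p₃, p₃ = max p₀ (max p₁ p₂) := ⟨_, rfl⟩
  have key : ∀ p ∈ PP, p₃ ≤ p → ∀ z : ℤ, (p : ℤ) ∣ z → ¬ (p : ℤ) ^ 2 ∣ z →
      ∃ S : Set (Fin n → Fin m → ℤ), ((Rs p S).ncard : ℝ) * p ≤ (C : ℝ) * (p : ℝ) ^ (2 * (n * m)) ∧
        ∀ a, a ∉ S → Q1For P (fun i => (∑ r, (a i r : ℂ) * b r) / (z : ℂ)) := by
    intro p hp hpp z hz1 hz2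
    have hfact : Fact p.Prime := ⟨hPP p hp⟩
    have hpp0 : p₀ ≤ p := le_trans (hp₃ ▸ le_max_left _ _) hpp
    have hpp1 : p₁ ≤ p := le_trans (hp₃ ▸ le_trans (le_max_left _ _) (le_max_right _ _)) hpp
    have hpp2 : p₂ ≤ p := le_trans (hp₃ ▸ le_trans (le_max_right _ _) (le_max_right _ _)) hpp
    obtain ⟨ι, hι⟩ := hemb p hp hpp2
    refine ⟨{a : Fin n → Fin m → ℤ | ¬ ((∀ i, ‖sv (fun r => ι (b' r)) (a i)‖ = 1) ∧
      ∀ l, GnK p ℂ_[p] n (e l) (fun i => cf ι (f l i))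
          (fun i => (p : ℂ_[p]) * ι ((∑ r, ((a i r : ℤ) : Qb) * b' r) / (z : Qb))) ∧
        Di (e l) (fun i => cf ι (f l i))
          (fun i => (p : ℂ_[p]) * ι ((∑ r, ((a i r : ℤ) : Qb) * b' r) / (z : Qb))))}, ?_, ?_⟩
    · exact_mod_cast hC p hpp1 ι hι z hz1 hz2
    · intro a ha
      have ha' := not_not.mp ha
      obtain ⟨ha1, ha2⟩ := ha'
      have hp0 : (p : ℝ) ≠ 0 := by exact_mod_cast hfact.out.ne_zero
      have hval : ∀ i, ι ((∑ r, ((a i r : ℤ) : Qb) * b' r) / (z : Qb)) =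
          sv (fun r => ι (b' r)) (a i) / (z : ℂ_[p]) := by
        intro i
        unfold sv
        rw [map_div₀, map_sum, map_intCast]
        congr 1
        refine Finset.sum_congr rfl fun r _ => ?_
        rw [map_mul, map_intCast]
      have h1 := hF p hpp0 ι (fun i => (∑ r, ((a i r : ℤ) : Qb) * b' r) / (z : Qb)) ?_ ?_ ha2
      · have h2 : (fun i => (∑ r, (a i r : ℂ) * b r) / (z : ℂ)) =
            fun i => (((∑ r, ((a i r : ℤ) : Qb) * b' r) / (z : Qb) : Qb) : ℂ) := by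
          funext i
          have h3 : (((∑ r, ((a i r : ℤ) : Qb) * b' r) / (z : Qb) : Qb) : ℂ) =
              (algebraicClosure ℚ ℂ).val ((∑ r, ((a i r : ℤ) : Qb) * b' r) / (z : Qb)) := rfl
          rw [h3, map_div₀, map_sum, map_intCast]
          congr 1
          refine Finset.sum_congr rfl fun r _ => ?_
          rw [map_mul, map_intCast]
          congr 1
          exact (hb' r).symm
        rw [h2]
        exact h1
      · intro i
        refine div_mem (sum_mem fun r _ => mul_mem (intCast_mem _ _) ?_) (intCast_mem _ _)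
        apply Subfield.subset_closure
        rw [Finset.mem_coe, Finset.mem_image]
        exact ⟨r, Finset.mem_univ r, rfl⟩
      · intro i
        rw [hval, norm_div, ha1 i, norm_z p z hz1 hz2, one_div, inv_inv]
  choose! B hB1 hB2 using key
  obtain ⟨H₀, hH₀⟩ := hDnk n m p₃ C ε hε PP hPP hsum B hB1
  refine ⟨H₀, fun H hH A hA => hH₀ H hH A ?_⟩
  intro w hw
  obtain ⟨h1, h2, h3, h4⟩ := hA w hw
  refine ⟨h1, h2, h3, ?_⟩
  rintro ⟨p, hp, hpp, hd1, hd2, hnB⟩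
  exact h4 (hB2 p hp hpp w.2 hd1 hd2 w.1 hnB)

end Pool.Agent.ZPK.H7
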