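import Pool.Agent.ZPK.StmtsX

/-!
# Squad ZPK, row XLO: perturbations of lower order
-/

set_option autoImplicit false

noncomputable section

namespace Pool.Agent.ZPK.H7

open Polynomial Pool.Agent.ZPT Pool.Agent.ZP3 Pool.Agent.ZPK

section norms

variable {K : Type} [NormedField K] [IsUltrametricDist K]

theorem nadd {a b : K} {r : ℝ} (ha : ‖a‖ ≤ r) (hb : ‖b‖ ≤ r) : ‖a + b‖ ≤ r :=
  le_trans (IsUltrametricDist.norm_add_le_max a b) (max_le ha hb)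

theorem nsub {a b : K} {r : ℝ} (ha : ‖a‖ ≤ r) (hb : ‖b‖ ≤ r) : ‖a - b‖ ≤ r := by
  rw [sub_eq_add_neg]
  exact nadd ha (by rw [norm_neg]; exact hb)

omit [IsUltrametricDist K] in
theorem nneg {a : K} {r : ℝ} (ha : ‖a‖ ≤ r) : ‖-a‖ ≤ r := by
  rw [norm_neg]; exact ha

omit [IsUltrametricDist K] in
theorem nmul {a b : K} {r : ℝ} (ha : ‖a‖ ≤ 1) (hb : ‖b‖ ≤ r) : ‖a * b‖ ≤ r := by
  rw [norm_mul]
  calc ‖a‖ * ‖b‖ ≤ 1 * ‖b‖ := mul_le_mul_of_nonneg_right ha (norm_nonneg _)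
    _ = ‖b‖ := one_mul _
    _ ≤ r := hb

theorem nmul' {a b : K} {r : ℝ} (ha : ‖a‖ ≤ r) (hb : ‖b‖ ≤ 1) : ‖a * b‖ ≤ r := by
  rw [mul_comm]
  exact nmul hb ha

end norms

theorem tame_ur {p : ℕ} (hp : p.Prime) {K : Type} [NormedField K] {x : K} (h : Tame p x) :
    Ur p x ∧ ‖x‖ = 1 := by
  obtain ⟨M, hM, hpM, hx⟩ := h
  have hnx : ‖x‖ = 1 := by
    have h1 : ‖x‖ ^ M = 1 := by rw [← norm_pow, hx, norm_one]
    exact (pow_eq_one_iff_of_nonneg (norm_nonneg x) (by omega)).mp h1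
  refine ⟨⟨le_of_eq hnx, M.totient, Nat.totient_pos.mpr hM, ?_⟩, hnx⟩
  have hcop : Nat.Coprime p M := (Nat.Prime.coprime_iff_not_dvd hp).mpr hpM
  have h1 := Nat.ModEq.pow_totient hcop
  have hpos : 1 ≤ p ^ M.totient := Nat.one_le_pow _ _ hp.pos
  obtain ⟨k, hk⟩ := (Nat.modEq_iff_dvd' hpos).mp h1.symm
  have h2 : p ^ M.totient = M * k + 1 := by omega
  rw [h2, pow_succ, pow_mul, hx, one_pow, one_mul, sub_self, norm_zero]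
  positivity

theorem xlo (hURR : URRStmt) : XloStmt := by
  intro p hp h5 K _ _ _ hExt G B m n κ N w t ζ ζ' a e ha hae ht hG hB hm hn hκ hw hl hN hζ hζ' h01 h23
  obtain ⟨hR1, -, -, hR2, hR3⟩ := hURR p hp K hExt
  have hp0 : (0 : ℝ) < p := by exact_mod_cast hp.pos
  have hp1 : (p : ℝ)⁻¹ < 1 := inv_lt_one_of_one_lt₀ (by exact_mod_cast hp.one_lt)
  have hθ0 : 0 < ‖t‖ := by
    rcases (norm_nonneg t).lt_or_eq with h | h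
    · exact h
    · rw [← h, zero_pow (by omega)] at ht
      exact absurd ht (ne_of_lt (inv_pos.mpr hp0))
  have hθ1 : ‖t‖ < 1 := by
    by_contra hcon
    push Not at hcon
    have := one_le_pow₀ (n := e) hcon
    rw [ht] at this
    linarith
  have hmul : ∀ u v : K, Ur p u → Ur p v → Ur p (u * v) := fun u v hu hv => (hR1 u v hu hv).2.1
  have hsub : ∀ u v : K, Ur p u → Ur p v → Ur p (u - v) := fun u v hu hv => (hR1 u v hu hv).2.2.2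
  have hκ0 : ∀ i, κ i ≠ 0 := by
    intro i h
    have := (hκ i).2
    rw [h, norm_zero] at this
    exact zero_ne_one this
  obtain ⟨hζu, hζn⟩ := tame_ur hp hζ
  obtain ⟨hζu', hζn'⟩ := tame_ur hp hζ'
  -- the two ratios
  obtain ⟨x, hx, hxu⟩ : ∃ x : K, N 0 = x * N 1 ∧ Ur p x := by
    refine ⟨ζ * κ 1 * (κ 0)⁻¹, ?_, hmul _ _ (hmul _ _ hζu (hκ 1).1) (hR3 _ (hκ 0)).1⟩
    have h1 := hκ0 0
    field_simp
    rw [mul_comm (N 0) (κ 0), h01]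
    ring
  obtain ⟨y, hy, hyu⟩ : ∃ y : K, N 2 = y * N 3 ∧ Ur p y := by
    refine ⟨ζ' * κ 3 * (κ 2)⁻¹, ?_, hmul _ _ (hmul _ _ hζu' (hκ 3).1) (hR3 _ (hκ 2)).1⟩
    have h1 := hκ0 2
    field_simp
    rw [mul_comm (N 2) (κ 2), h23]
    ring
  have hx1 : ‖x‖ ≤ 1 := hxu.1
  have hy1 : ‖y‖ ≤ 1 := hyu.1
  -- names
  obtain ⟨l, hldef⟩ : ∃ l : Fin 4 → K, ∀ i, l i = G i + B i * w := ⟨fun i => G i + B i * w, fun _ => rfl⟩
  obtain ⟨h, hhdef⟩ : ∃ h : Fin 4 → K, ∀ i, h i = m i * w + n i := ⟨fun i => m i * w + n i, fun _ => rfl⟩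
  obtain ⟨E, hEdef⟩ : ∃ E : Fin 4 → K, ∀ i, E i = N i - (G i + B i * w + t ^ a * (m i * w + n i)) :=
    ⟨fun i => N i - (G i + B i * w + t ^ a * (m i * w + n i)), fun _ => rfl⟩
  have hNl : ∀ i, N i = l i + t ^ a * h i + E i := by
    intro i
    rw [hldef, hhdef, hEdef]
    ring
  have hE : ∀ i, ‖E i‖ ≤ ‖t‖ ^ (a + 1) := by
    intro i
    rw [hEdef]
    exact hN i
  have hG1 : ∀ i, ‖G i‖ ≤ 1 := fun i => (hG i).1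
  have hB1 : ∀ i, ‖B i‖ ≤ 1 := fun i => (hB i).1
  have hl1 : ∀ i, ‖l i‖ ≤ 1 := by
    intro i
    rw [hldef]
    exact le_of_eq (hl i)
  have hh1 : ∀ i, ‖h i‖ ≤ 1 := by
    intro i
    rw [hhdef]
    exact nadd (nmul (hm i) hw) (hn i)
  have hta : ‖t ^ a‖ ≤ ‖t‖ ^ a := le_of_eq (norm_pow _ _)
  have hpa : ‖t‖ ^ (a + 1) ≤ ‖t‖ ^ a := pow_le_pow_of_le_one hθ0.le hθ1.le (by omega)
  have hpa1 : ‖t‖ ^ a ≤ ‖t‖ := by
    calc ‖t‖ ^ a ≤ ‖t‖ ^ 1 := pow_le_pow_of_le_one hθ0.le hθ1.le ha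
      _ = ‖t‖ := pow_one _
  -- u and v
  obtain ⟨u, hu⟩ : ∃ u, u = l 0 - x * l 1 := ⟨_, rfl⟩
  obtain ⟨v, hv⟩ : ∃ v, v = l 2 - y * l 3 := ⟨_, rfl⟩
  have hu2 : u = -(t ^ a * (h 0 - x * h 1)) - (E 0 - x * E 1) := by
    have h1 := hNl 0
    have h2 := hNl 1
    rw [hx, h2] at h1
    rw [hu]
    linear_combination -h1
  have hv2 : v = -(t ^ a * (h 2 - y * h 3)) - (E 2 - y * E 3) := by
    have h1 := hNl 2
    have h2 := hNl 3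
    rw [hy, h2] at h1
    rw [hv]
    linear_combination -h1
  have hu3 : ‖u‖ ≤ ‖t‖ ^ a := by
    rw [hu2]
    exact nsub (nneg (nmul' hta (nsub (hh1 0) (nmul hx1 (hh1 1)))))
      (nsub (le_trans (hE 0) hpa) (nmul hx1 (le_trans (hE 1) hpa)))
  have hv3 : ‖v‖ ≤ ‖t‖ ^ a := by
    rw [hv2]
    exact nsub (nneg (nmul' hta (nsub (hh1 2) (nmul hy1 (hh1 3)))))
      (nsub (le_trans (hE 2) hpa) (nmul hy1 (le_trans (hE 3) hpa)))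
  obtain ⟨β, hβ⟩ : ∃ β, β = B 0 - x * B 1 := ⟨_, rfl⟩
  obtain ⟨δ, hδ⟩ : ∃ δ, δ = B 2 - y * B 3 := ⟨_, rfl⟩
  have hβ1 : ‖β‖ ≤ 1 := by
    rw [hβ]
    exact nsub (hB1 0) (nmul hx1 (hB1 1))
  have hδ1 : ‖δ‖ ≤ 1 := by
    rw [hδ]
    exact nsub (hB1 2) (nmul hy1 (hB1 3))
  obtain ⟨R, hR⟩ : ∃ R, R = (G 0 - x * G 1) * (B 2 - y * B 3) - (G 2 - y * G 3) * (B 0 - x * B 1) :=
    ⟨_, rfl⟩
  have hRuv : R = u * δ - v * β := by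
    rw [hR, hu, hv, hδ, hβ, hldef, hldef, hldef, hldef]
    ring
  have hRu : Ur p R := by
    rw [hR]
    exact hsub _ _ (hmul _ _ (hsub _ _ (hG 0) (hmul _ _ hxu (hG 1)))
      (hsub _ _ (hB 2) (hmul _ _ hyu (hB 3))))
      (hmul _ _ (hsub _ _ (hG 2) (hmul _ _ hyu (hG 3)))
      (hsub _ _ (hB 0) (hmul _ _ hxu (hB 1))))
  have hR4 : ‖R‖ ≤ ‖t‖ ^ a := by
    rw [hRuv]
    exact nsub (nmul' hu3 hδ1) (nmul' hv3 hβ1)
  have hR5 : ‖R‖ ≤ ‖t‖ ^ (a + 1) := by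
    have h1 : ‖R‖ < 1 := lt_of_le_of_lt hR4 (pow_lt_one₀ hθ0.le hθ1 (by omega))
    calc ‖R‖ ≤ (p : ℝ)⁻¹ := hR2 R hRu h1
      _ = ‖t‖ ^ e := ht.symm
      _ ≤ ‖t‖ ^ (a + 1) := pow_le_pow_of_le_one hθ0.le hθ1.le (by omega)
  obtain ⟨Z, hZ⟩ : ∃ Z, Z = (h 0 - x * h 1) * δ - (h 2 - y * h 3) * β := ⟨_, rfl⟩
  have hZ1 : t ^ a * Z = -R - ((E 0 - x * E 1) * δ - (E 2 - y * E 3) * β) := by
    rw [hRuv, hu2, hv2, hZ]
    ring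
  have hZ2 : ‖t ^ a * Z‖ ≤ ‖t‖ ^ (a + 1) := by
    rw [hZ1]
    exact nsub (nneg hR5) (nsub (nmul' (nsub (hE 0) (nmul hx1 (hE 1))) hδ1)
      (nmul' (nsub (hE 2) (nmul hy1 (hE 3))) hβ1))
  have hZ3 : ‖Z‖ ≤ ‖t‖ := by
    rw [norm_mul, norm_pow, pow_succ] at hZ2
    exact le_of_mul_le_mul_left hZ2 (pow_pos hθ0 a)
  -- the identity
  have hid : (Hx G B m n).eval w = -(l 1 * l 3 * Z) +
      v * ((l 1 * h 0 - l 0 * h 1) * B 3 + h 3 * (G 0 * B 1 - G 1 * B 0)) -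
      u * (h 1 * (G 2 * B 3 - G 3 * B 2) + (l 3 * h 2 - l 2 * h 3) * B 1) +
      u * v * (h 1 * B 3 - h 3 * B 1) := by
    have h1 : (Hx G B m n).eval w = (G 2 * B 3 - G 3 * B 2) * (l 1 * h 0 - l 0 * h 1) -
        (G 0 * B 1 - G 1 * B 0) * (l 3 * h 2 - l 2 * h 3) := by
      unfold Hx
      simp only [eval_sub, eval_mul, eval_add, eval_C, eval_X]
      rw [hldef, hldef, hldef, hldef, hhdef, hhdef, hhdef, hhdef]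
      ring
    rw [h1, hZ, hu, hv, hδ, hβ]
    have hl0 := hldef 0
    have hl1' := hldef 1
    have hl2 := hldef 2
    have hl3 := hldef 3
    rw [hl0, hl1', hl2, hl3]
    ring
  have hprod : ‖l 1 * l 3 * Z‖ ≤ ‖t‖ := nmul (nmul (hl1 1) (hl1 3)) hZ3
  have hd01 : ‖G 0 * B 1 - G 1 * B 0‖ ≤ 1 :=
    nsub (nmul (hG1 0) (hB1 1)) (nmul (hG1 1) (hB1 0))
  have hd23 : ‖G 2 * B 3 - G 3 * B 2‖ ≤ 1 :=
    nsub (nmul (hG1 2) (hB1 3)) (nmul (hG1 3) (hB1 2))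
  have hA : ‖l 1 * h 0 - l 0 * h 1‖ ≤ 1 :=
    nsub (nmul (hl1 1) (hh1 0)) (nmul (hl1 0) (hh1 1))
  have hC : ‖l 3 * h 2 - l 2 * h 3‖ ≤ 1 :=
    nsub (nmul (hl1 3) (hh1 2)) (nmul (hl1 2) (hh1 3))
  have hut : ‖u‖ ≤ ‖t‖ := le_trans hu3 hpa1
  have hvt : ‖v‖ ≤ ‖t‖ := le_trans hv3 hpa1
  rw [hid]
  refine nadd (nsub (nadd (nneg hprod) ?_) ?_) ?_
  · exact nmul' hvt (nadd (nmul hA (hB1 3)) (nmul (hh1 3) hd01))
  · exact nmul' hut (nadd (nmul (hh1 1) hd23) (nmul hC (hB1 1)))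
  · exact nmul' (nmul' hut (le_trans hvt hθ1.le)) (nsub (nmul (hh1 1) (hB1 3)) (nmul (hh1 3) (hB1 1)))

end Pool.Agent.ZPK.H7
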